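import Pool.Agent.Work.MP_2738db_nt_A.Interface

set_option autoImplicit false

namespace Pool.Agent.Work.MP_2738db_nt_A.helper59

open NumberField Module

/-- ideals from tuples of residues modulo `N` -/
noncomputable def cntMap (K : Type) [Field K] [NumberField K] (N : ℕ)
    (g : Fin (finrank ℚ K) → 𝓞 K ⧸ (Ideal.span {(N : 𝓞 K)})) : Ideal (𝓞 K) :=
  Ideal.comap (Ideal.Quotient.mk (Ideal.span {(N : 𝓞 K)})) (Ideal.span (Set.range g))

theorem cnt_surj (K : Type) [Field K] [NumberField K] (N : ℕ) (I : Ideal (𝓞 K)) (hI : I ≠ ⊥)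
    (hN : Ideal.absNorm I = N) : ∃ g, cntMap K N g = I := by
  classical
  have hr : finrank ℤ I = finrank ℚ K := by
    rw [← RingOfIntegers.rank K]
    exact Ideal.finrank_eq_finrank (Module.Free.chooseBasis ℤ (𝓞 K)) I hI
  let b : Basis (Fin (finrank ℤ I)) ℤ I := finBasis ℤ I
  let b' : Fin (finrank ℚ K) → 𝓞 K := fun i => (b (Fin.cast hr.symm i) : 𝓞 K)
  have hspan : Ideal.span (Set.range b') = I := by
    apply le_antisymm
    · rw [Ideal.span_le]
      rintro _ ⟨i, rfl⟩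
      exact (b (Fin.cast hr.symm i)).2
    · intro x hx
      have h1 := b.sum_repr ⟨x, hx⟩
      have h2 : x = ∑ i, (b.repr ⟨x, hx⟩ i) • (b i : 𝓞 K) := by
        have h4 := congrArg (I.subtype.restrictScalars ℤ) h1
        rw [map_sum] at h4
        simp only [map_smul] at h4
        exact h4.symm
      rw [h2]
      refine Ideal.sum_mem _ fun i _ => ?_
      refine Submodule.smul_of_tower_mem _ _ (Ideal.subset_span ⟨Fin.cast hr i, ?_⟩)
      simp [b']
  refine ⟨fun i => Ideal.Quotient.mk _ (b' i), ?_⟩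
  unfold cntMap
  have h3 : Set.range (fun i => Ideal.Quotient.mk (Ideal.span {(N : 𝓞 K)}) (b' i))
      = (Ideal.Quotient.mk (Ideal.span {(N : 𝓞 K)})) '' Set.range b' := by
    rw [← Set.range_comp]
    rfl
  rw [h3, ← Ideal.map_span, hspan, Ideal.comap_map_of_surjective _ Ideal.Quotient.mk_surjective]
  apply le_antisymm
  · refine sup_le le_rfl ?_
    intro x hx
    rw [Ideal.mem_comap, Ideal.mem_bot, Ideal.Quotient.eq_zero_iff_mem] at hx
    have h4 : Ideal.span {(N : 𝓞 K)} ≤ I := by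
      rw [Ideal.span_singleton_le_iff_mem, ← hN]
      exact Ideal.absNorm_mem I
    exact h4 hx
  · exact le_sup_left

theorem cnt_one (K : Type) [Field K] [NumberField K] (N : ℕ) (hN : 1 ≤ N) :
    {I : Ideal (𝓞 K) | I ≠ ⊥ ∧ Ideal.absNorm I = N}.Finite ∧
    {I : Ideal (𝓞 K) | I ≠ ⊥ ∧ Ideal.absNorm I = N}.ncard ≤ N ^ (finrank ℚ K ^ 2) := by
  classical
  have hN0 : (Ideal.span {(N : 𝓞 K)}) ≠ ⊥ := by
    rw [Ne, Ideal.span_singleton_eq_bot]
    exact_mod_cast (by omega : N ≠ 0)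
  have : Finite (𝓞 K ⧸ (Ideal.span {(N : 𝓞 K)})) := Ideal.finiteQuotientOfFreeOfNeBot _ hN0
  have hcard : Nat.card (𝓞 K ⧸ (Ideal.span {(N : 𝓞 K)})) = N ^ finrank ℚ K := by
    have h1 : Ideal.absNorm (Ideal.span {(N : 𝓞 K)}) = N ^ finrank ℚ K := by
      rw [Ideal.absNorm_span_singleton]
      have : Algebra.norm ℤ ((N : ℤ) : 𝓞 K) = (N : ℤ) ^ finrank ℤ (𝓞 K) := by
        have := Algebra.norm_algebraMap_of_basis (Module.Free.chooseBasis ℤ (𝓞 K)) (N : ℤ)
        simpa [Module.finrank_eq_card_chooseBasisIndex] using this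
      rw [show ((N : 𝓞 K)) = ((N : ℤ) : 𝓞 K) by push_cast; rfl, this, Int.natAbs_pow,
        Int.natAbs_natCast, RingOfIntegers.rank]
    rw [← h1, Ideal.absNorm_apply, Submodule.cardQuot_apply]
  have hsub : {I : Ideal (𝓞 K) | I ≠ ⊥ ∧ Ideal.absNorm I = N} ⊆ Set.range (cntMap K N) := by
    rintro I ⟨hI, hIN⟩
    exact cnt_surj K N I hI hIN
  have hfin : (Set.range (cntMap K N)).Finite := Set.finite_range _
  refine ⟨hfin.subset hsub, (Set.ncard_le_ncard hsub hfin).trans ?_⟩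
  calc (Set.range (cntMap K N)).ncard
      ≤ Nat.card (Fin (finrank ℚ K) → 𝓞 K ⧸ (Ideal.span {(N : 𝓞 K)})) := by
        rw [← Set.image_univ, ← Set.ncard_univ]
        exact Set.ncard_image_le Set.finite_univ
    _ = N ^ (finrank ℚ K ^ 2) := by
        rw [Nat.card_fun, hcard, Nat.card_eq_fintype_card, Fintype.card_fin, ← pow_mul, pow_two]

theorem stmt_Cnt : Stmt_Cnt := by
  classical
  intro K _ _ m hm
  have hU : {I : Ideal (𝓞 K) | I ≠ ⊥ ∧ Ideal.absNorm I ≤ m}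
      = ⋃ N ∈ Finset.Icc 1 m, {I : Ideal (𝓞 K) | I ≠ ⊥ ∧ Ideal.absNorm I = N} := by
    ext I
    simp only [Set.mem_ofPred_eq, Set.mem_iUnion, Finset.mem_Icc, exists_prop]
    constructor
    · rintro ⟨h1, h2⟩
      refine ⟨Ideal.absNorm I, ⟨?_, h2⟩, h1, rfl⟩
      exact Nat.pos_of_ne_zero (by rwa [Ne, Ideal.absNorm_eq_zero_iff])
    · rintro ⟨N, ⟨_, h2⟩, h3, h4⟩
      exact ⟨h3, h4.le.trans h2⟩
  rw [hU]
  refine ⟨Set.Finite.biUnion (Finset.finite_toSet _) fun N hN => ?_, ?_⟩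
  · rw [Finset.mem_coe, Finset.mem_Icc] at hN
    exact (cnt_one K N hN.1).1
  · refine (Finset.set_ncard_biUnion_le _ _).trans ?_
    calc ∑ N ∈ Finset.Icc 1 m, {I : Ideal (𝓞 K) | I ≠ ⊥ ∧ Ideal.absNorm I = N}.ncard
        ≤ ∑ N ∈ Finset.Icc 1 m, m ^ (finrank ℚ K ^ 2) := by
          refine Finset.sum_le_sum fun N hN => ?_
          rw [Finset.mem_Icc] at hN
          exact (cnt_one K N hN.1).2.trans (Nat.pow_le_pow_left hN.2 _)
      _ = m ^ (finrank ℚ K ^ 2 + 1) := by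
          rw [Finset.sum_const, Nat.card_Icc, smul_eq_mul, Nat.add_sub_cancel, mul_comm,
            ← pow_succ m]

end Pool.Agent.Work.MP_2738db_nt_A.helper59
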