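import Pool.Agent.Work.MP_2738db_nt_A.Interface

set_option autoImplicit false

namespace Pool.Agent.Work.MP_2738db_nt_A.helper59

open UniqueFactorizationMonoid

theorem stmt_Idl : Stmt_Idl := by
  intro R _ _ α β c lam k hk hc hlam hab hmem
  classical
  have hprod : α * β ≠ 0 := by
    intro h
    rw [h] at hab
    have h1 : c ^ k ∈ Ideal.span {c ^ k} := Ideal.mem_span_singleton_self _
    rw [← hab] at h1
    have h2 : c ^ k = 0 := by simpa using h1
    exact hc (pow_eq_zero_iff (by omega) |>.1 h2)
  have hα : α ≠ 0 := left_ne_zero_of_mul hprod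
  have hβ : β ≠ 0 := right_ne_zero_of_mul hprod
  have bot_ne : ∀ x : R, x ≠ 0 → Ideal.span {x} ≠ (⊥ : Ideal R) := fun x hx => by
    simpa [Ideal.span_singleton_eq_bot] using hx
  set A := normalizedFactors (Ideal.span {α}) with hA
  set B := normalizedFactors (Ideal.span {β}) with hB
  set C := normalizedFactors (Ideal.span {c}) with hC
  set L := normalizedFactors (Ideal.span {lam}) with hL
  have eA : A.prod = Ideal.span {α} := Ideal.prod_normalizedFactors_eq_self (bot_ne α hα)
  have eB : B.prod = Ideal.span {β} := Ideal.prod_normalizedFactors_eq_self (bot_ne β hβ)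
  have eC : C.prod = Ideal.span {c} := Ideal.prod_normalizedFactors_eq_self (bot_ne c hc)
  have eL : L.prod = Ideal.span {lam} := Ideal.prod_normalizedFactors_eq_self (bot_ne lam hlam)
  have hABC : A + B = k • C := by
    rw [hA, hB, hC, ← normalizedFactors_pow, ← normalizedFactors_mul (bot_ne α hα) (bot_ne β hβ),
      Ideal.span_singleton_mul_span_singleton, Ideal.span_singleton_pow, hab]
  have hinter : A ⊓ B ≤ L := by
    have h1 : Ideal.span {lam} ≤ Ideal.span {α} ⊔ Ideal.span {β} := by
      rw [Ideal.span_singleton_le_iff_mem, ← Ideal.span_insert]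
      exact hmem
    have h2 : (Ideal.span {α} ⊔ Ideal.span {β} : Ideal R) ≠ ⊥ := by
      intro h
      rw [h] at h1
      exact bot_ne lam hlam (le_bot_iff.1 h1)
    have h3 := Ideal.dvd_iff_le.2 h1
    have h4 := (dvd_iff_normalizedFactors_le_normalizedFactors h2 (bot_ne lam hlam)).1 h3
    have h5 : normalizedFactors (Ideal.span {α} ⊔ Ideal.span {β} : Ideal R) = A ∩ B := by
      rw [Ideal.sup_eq_prod_inf_factors (bot_ne α hα) (bot_ne β hβ),
        normalizedFactors_prod_inter_eq_inter]
    rw [h5] at h4
    exact h4
  have hcount : ∀ q, min (A.count q) (B.count q) ≤ L.count q := fun q => by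
    have := Multiset.count_le_of_le q hinter
    simpa [Multiset.count_inter] using this
  have hcountk : ∀ q, A.count q + B.count q = k * C.count q := fun q => by
    have := congrArg (Multiset.count q) hABC
    simpa [Multiset.count_add, Multiset.count_nsmul] using this
  let P : Ideal R → Prop := fun q => L.count q < A.count q
  let F : Multiset (Ideal R) := (L - B).filter P + (L + A).filter (fun q => ¬ P q)
  have hsum : L + A = k • C.filter P + F := by
    ext q
    have h1 := hcount q
    have h2 := hcountk q
    simp only [F, Multiset.count_add, Multiset.count_nsmul, Multiset.count_filter,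
      Multiset.count_sub]
    by_cases hp : P q
    · have hp' : L.count q < A.count q := hp
      simp only [hp, if_true, not_true_eq_false, if_false]
      rcases Nat.le_total (A.count q) (B.count q) with h | h
      · rw [min_eq_left h] at h1; omega
      · rw [min_eq_right h] at h1; omega
    · simp only [hp, if_false, not_false_eq_true, if_true]
      omega
  have hF : F ≤ L + L := by
    rw [Multiset.le_iff_count]
    intro q
    simp only [F, Multiset.count_add, Multiset.count_filter, Multiset.count_sub]
    by_cases hp : P q
    · simp only [hp, if_true, not_true_eq_false, if_false]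
      omega
    · have hp' : ¬ L.count q < A.count q := hp
      simp only [hp, if_false, not_false_eq_true, if_true]
      omega
  refine ⟨(C.filter P).prod, F.prod, ?_, ?_, ?_⟩
  · rw [← Ideal.span_singleton_mul_span_singleton, ← eL, ← eA, ← Multiset.prod_add, hsum,
      Multiset.prod_add, Multiset.prod_nsmul]
  · rw [← eC]
    exact Multiset.prod_dvd_prod_of_le (Multiset.filter_le _ _)
  · rw [← Ideal.span_singleton_pow, ← eL, pow_two, ← Multiset.prod_add]
    exact Multiset.prod_dvd_prod_of_le hF

end Pool.Agent.Work.MP_2738db_nt_A.helper59
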