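import Pool.Agent.Work.MP_2738db_nt_A.Interface

set_option autoImplicit false

namespace Pool.Agent.Work.MP_2738db_nt_A.helper59

open NumberField NumberField.mixedEmbedding NumberField.InfinitePlace MeasureTheory Module
open scoped ENNReal NNReal nonZeroDivisors

theorem min_ineq (K : Type) [Field K] [NumberField K] (N : ℝ) (hN : 0 < N)
    (y : InfinitePlace K → ℝ) (B₀ : ℝ) (hB : Real.log 4 + Real.log |(discr K : ℝ)| ≤ B₀)
    (hy : ∑ v, (v.mult : ℝ) * y v = Real.log N) :
    N * Real.sqrt |(discr K : ℝ)| * 2 ^ finrank ℚ K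
      < ∏ v : InfinitePlace K, (Real.exp (y v + B₀)) ^ v.mult := by
  have hD : 1 ≤ finrank ℚ K := finrank_pos
  have hd1 : (1 : ℝ) ≤ |(discr K : ℝ)| := by
    have := Int.one_le_abs (discr_ne_zero K)
    exact_mod_cast this
  have hprod : ∏ v : InfinitePlace K, (Real.exp (y v + B₀)) ^ v.mult
      = N * Real.exp B₀ ^ finrank ℚ K := by
    have h1 : ∀ v : InfinitePlace K, (Real.exp (y v + B₀)) ^ v.mult
        = Real.exp ((v.mult : ℝ) * y v) * Real.exp B₀ ^ v.mult := fun v => by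
      rw [Real.exp_add, mul_pow, ← Real.exp_nat_mul (y v)]
    rw [Finset.prod_congr rfl (fun v _ => h1 v), Finset.prod_mul_distrib, ← Real.exp_sum, hy,
      Real.exp_log hN, Finset.prod_pow_eq_pow_sum, InfinitePlace.sum_mult_eq]
  rw [hprod, mul_assoc]
  refine mul_lt_mul_of_pos_left ?_ hN
  have h4 : 4 * |(discr K : ℝ)| ≤ Real.exp B₀ := by
    rw [← Real.log_mul (by norm_num) (by positivity)] at hB
    calc 4 * |(discr K : ℝ)| = Real.exp (Real.log (4 * |(discr K : ℝ)|)) :=
          (Real.exp_log (by positivity)).symm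
      _ ≤ _ := Real.exp_le_exp.2 hB
  have hs : Real.sqrt |(discr K : ℝ)| ≤ |(discr K : ℝ)| := by
    rw [Real.sqrt_le_left (by positivity)]
    nlinarith
  calc Real.sqrt |(discr K : ℝ)| * 2 ^ finrank ℚ K
      ≤ |(discr K : ℝ)| ^ finrank ℚ K * 2 ^ finrank ℚ K := by
        refine mul_le_mul_of_nonneg_right (hs.trans ?_) (by positivity)
        exact le_self_pow₀ hd1 (by omega)
    _ = (2 * |(discr K : ℝ)|) ^ finrank ℚ K := by rw [mul_pow]; ring
    _ < (4 * |(discr K : ℝ)|) ^ finrank ℚ K := by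
        refine pow_lt_pow_left₀ (by linarith) (by positivity) (by omega)
    _ ≤ Real.exp B₀ ^ finrank ℚ K := pow_le_pow_left₀ (by positivity) h4 _

theorem min_exists (K : Type) [Field K] [NumberField K] (I : Ideal (𝓞 K)) (hI : I ≠ ⊥)
    (y : InfinitePlace K → ℝ) (B₀ : ℝ) (hB : Real.log 4 + Real.log |(discr K : ℝ)| ≤ B₀)
    (hy : ∑ v, (v.mult : ℝ) * y v = Real.log (Ideal.absNorm I)) :
    ∃ x : 𝓞 K, x ∈ I ∧ x ≠ 0 ∧ ∀ v : InfinitePlace K, v (x : K) < Real.exp (y v + B₀) := by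
  classical
  have hN : (0 : ℝ) < Ideal.absNorm I := by
    have : Ideal.absNorm I ≠ 0 := by rwa [Ne, Ideal.absNorm_eq_zero_iff]
    exact_mod_cast Nat.pos_of_ne_zero this
  have hI0 : (I : FractionalIdeal (𝓞 K)⁰ K) ≠ 0 := by
    rwa [Ne, FractionalIdeal.coeIdeal_eq_zero]
  let J : (FractionalIdeal (𝓞 K)⁰ K)ˣ := Units.mk0 (I : FractionalIdeal (𝓞 K)⁰ K) hI0
  let f : InfinitePlace K → ℝ≥0 := fun v => ⟨Real.exp (y v + B₀), (Real.exp_pos _).le⟩
  have hlt : minkowskiBound K J < volume (convexBodyLT K f) := by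
    rw [convexBodyLT_volume, minkowskiBound, volume_fundamentalDomain_fractionalIdealLatticeBasis,
      volume_fundamentalDomain_latticeBasis, mixedEmbedding.finrank]
    have hJ : (FractionalIdeal.absNorm J.1 : ℝ) = Ideal.absNorm I := by
      change ((FractionalIdeal.absNorm (I : FractionalIdeal (𝓞 K)⁰ K) : ℚ) : ℝ) = _
      rw [FractionalIdeal.coeIdeal_absNorm]
      norm_cast
    have key := min_ineq K (Ideal.absNorm I) hN y B₀ hB hy
    have e1 : (∏ w, (f w) ^ (mult w) : ℝ≥0) =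
        (⟨∏ v : InfinitePlace K, (Real.exp (y v + B₀)) ^ v.mult, by positivity⟩ : ℝ≥0) := by
      ext
      push_cast
      rfl
    rw [e1, hJ]
    have e2 : ENNReal.ofReal (Ideal.absNorm I) * ((2 : ℝ≥0∞)⁻¹ ^ nrComplexPlaces K *
        (NNReal.sqrt ‖discr K‖₊ : ℝ≥0∞)) * 2 ^ finrank ℚ K
        ≤ ENNReal.ofReal ((Ideal.absNorm I : ℝ) * Real.sqrt |(discr K : ℝ)| * 2 ^ finrank ℚ K) := by
      have e3 : ENNReal.ofReal ((Ideal.absNorm I : ℝ) * Real.sqrt |(discr K : ℝ)| * 2 ^ finrank ℚ K)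
          = ENNReal.ofReal (Ideal.absNorm I) * (NNReal.sqrt ‖discr K‖₊ : ℝ≥0∞)
            * 2 ^ finrank ℚ K := by
        rw [ENNReal.ofReal_mul (by positivity), ENNReal.ofReal_mul (by positivity),
          ENNReal.ofReal_pow (by norm_num), ENNReal.ofReal_ofNat]
        congr 2
        rw [← ENNReal.ofReal_coe_nnreal]
        congr 1
        simp [Int.norm_eq_abs]
      rw [e3]
      gcongr
      refine (mul_le_mul_left ?_ _).trans (one_mul _).le
      exact pow_le_one₀ (by positivity) (by simp)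
    refine e2.trans_lt ?_
    have e4 : ENNReal.ofReal ((Ideal.absNorm I : ℝ) * Real.sqrt |(discr K : ℝ)| * 2 ^ finrank ℚ K)
        < ENNReal.ofReal (∏ v : InfinitePlace K, (Real.exp (y v + B₀)) ^ v.mult) :=
      (ENNReal.ofReal_lt_ofReal_iff (by positivity)).2 key
    refine e4.trans_le ?_
    have e5 : ENNReal.ofReal (∏ v : InfinitePlace K, (Real.exp (y v + B₀)) ^ v.mult)
        = ((∏ w, (f w) ^ (mult w) : ℝ≥0) : ℝ≥0∞) := by
      rw [e1, ← ENNReal.ofReal_coe_nnreal]
      rfl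
    rw [e5, e1]
    refine le_mul_of_one_le_left (by positivity) ?_
    exact_mod_cast one_le_convexBodyLTFactor K
  obtain ⟨a, ha, ha0, hlt'⟩ := exists_ne_zero_mem_ideal_lt K J hlt
  have ha' : a ∈ (I : FractionalIdeal (𝓞 K)⁰ K) := ha
  rw [FractionalIdeal.mem_coeIdeal] at ha'
  obtain ⟨x, hx, rfl⟩ := ha'
  refine ⟨x, hx, ?_, fun v => ?_⟩
  · rintro rfl
    exact ha0 (by simp)
  · exact hlt' v

theorem stmt_Min : Stmt_Min := by
  classical
  intro K _ _ I y B₀ hI hB hy
  obtain ⟨x, hx, hx0, hlt⟩ := min_exists K I hI y B₀ hB hy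
  refine ⟨x, hx, hx0, ?_⟩
  have hxK : (x : K) ≠ 0 := by simpa using hx0
  have hpos : ∀ v : InfinitePlace K, 0 < v (x : K) := fun v => InfinitePlace.pos_iff.2 hxK
  have hB0 : 0 ≤ B₀ := by
    have hd1 : (1 : ℝ) ≤ |(discr K : ℝ)| := by
      have := Int.one_le_abs (discr_ne_zero K)
      exact_mod_cast this
    have := Real.log_nonneg hd1
    have := Real.log_nonneg (show (1 : ℝ) ≤ 4 by norm_num)
    linarith
  have hup : ∀ v : InfinitePlace K, Real.log (v (x : K)) - y v ≤ B₀ := fun v => by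
    have h1 := (Real.log_lt_log (hpos v) (hlt v)).le
    rw [Real.log_exp] at h1
    linarith
  have hsum : 0 ≤ ∑ v : InfinitePlace K, (v.mult : ℝ) * (Real.log (v (x : K)) - y v) := by
    have h1 : ∑ v : InfinitePlace K, (v.mult : ℝ) * Real.log (v (x : K))
        = Real.log (∏ v : InfinitePlace K, v (x : K) ^ v.mult) := by
      rw [Real.log_prod (fun v _ => (pow_pos (hpos v) _).ne')]
      refine Finset.sum_congr rfl fun v _ => ?_
      rw [Real.log_pow]
    have h2 : Real.log (Ideal.absNorm I) ≤ Real.log (∏ v : InfinitePlace K, v (x : K) ^ v.mult) := by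
      rw [InfinitePlace.prod_eq_abs_norm]
      have hN : Ideal.absNorm I ≠ 0 := by rwa [Ne, Ideal.absNorm_eq_zero_iff]
      have hdvd : Ideal.absNorm I ∣ Ideal.absNorm (Ideal.span {x}) :=
        Ideal.absNorm_dvd_absNorm_of_le (by rwa [Ideal.span_singleton_le_iff_mem])
      rw [Ideal.absNorm_span_singleton] at hdvd
      have hx1 : (Algebra.norm ℤ x).natAbs ≠ 0 := by
        rw [Int.natAbs_ne_zero]
        exact Algebra.norm_ne_zero_iff.2 hx0
      have hle : Ideal.absNorm I ≤ (Algebra.norm ℤ x).natAbs :=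
        Nat.le_of_dvd (Nat.pos_of_ne_zero hx1) hdvd
      refine Real.log_le_log (by exact_mod_cast Nat.pos_of_ne_zero hN) ?_
      have h3 : ((|Algebra.norm ℚ (x : K)| : ℚ) : ℝ) = ((Algebra.norm ℤ x).natAbs : ℝ) := by
        rw [← Algebra.coe_norm_int, Nat.cast_natAbs]
        push_cast
        rfl
      rw [h3]
      exact_mod_cast hle
    have h3 : ∑ v : InfinitePlace K, (v.mult : ℝ) * (Real.log (v (x : K)) - y v)
        = ∑ v : InfinitePlace K, (v.mult : ℝ) * Real.log (v (x : K))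
          - ∑ v : InfinitePlace K, (v.mult : ℝ) * y v := by
      rw [← Finset.sum_sub_distrib]
      exact Finset.sum_congr rfl fun v _ => by ring
    rw [h3, h1, hy]
    linarith
  have hmult : ∑ v : InfinitePlace K, (v.mult : ℝ) = finrank ℚ K := by
    have := InfinitePlace.sum_mult_eq (K := K)
    exact_mod_cast this
  have hD : (1 : ℝ) ≤ finrank ℚ K := by
    have : 1 ≤ finrank ℚ K := finrank_pos
    exact_mod_cast this
  intro w
  have hw1 : (1 : ℝ) ≤ w.mult := by exact_mod_cast w.one_le_mult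
  rw [abs_le]
  constructor
  · have h1 : ∑ v : InfinitePlace K, (v.mult : ℝ) * (Real.log (v (x : K)) - y v)
        ≤ (w.mult : ℝ) * (Real.log (w (x : K)) - y w) + ((finrank ℚ K : ℝ) - w.mult) * B₀ := by
      rw [← Finset.add_sum_erase _ _ (Finset.mem_univ w)]
      have h2 : ∑ v ∈ Finset.univ.erase w, (v.mult : ℝ) * (Real.log (v (x : K)) - y v)
          ≤ ∑ v ∈ Finset.univ.erase w, (v.mult : ℝ) * B₀ :=
        Finset.sum_le_sum fun v _ => mul_le_mul_of_nonneg_left (hup v) (by positivity)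
      have h3 : ∑ v ∈ Finset.univ.erase w, (v.mult : ℝ) * B₀
          = ((finrank ℚ K : ℝ) - w.mult) * B₀ := by
        rw [← Finset.sum_mul, ← hmult, ← Finset.add_sum_erase _ _ (Finset.mem_univ w)]
        ring
      linarith
    by_contra hcon
    push Not at hcon
    have h4 : (w.mult : ℝ) * (Real.log (w (x : K)) - y w)
        ≤ (w.mult : ℝ) * (-((finrank ℚ K : ℝ) * B₀)) :=
      mul_le_mul_of_nonneg_left hcon.le (by positivity)
    have h5 : (w.mult : ℝ) * (Real.log (w (x : K)) - y w)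
        < (w.mult : ℝ) * (-((finrank ℚ K : ℝ) * B₀)) :=
      mul_lt_mul_of_pos_left hcon (by linarith)
    nlinarith [mul_nonneg (mul_nonneg (sub_nonneg.2 hw1) (by linarith : (0:ℝ) ≤ finrank ℚ K)) hB0,
      mul_nonneg (by linarith : (0:ℝ) ≤ w.mult) hB0]
  · have := hup w
    nlinarith

end Pool.Agent.Work.MP_2738db_nt_A.helper59
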