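import Pool.Agent.Work.MP_2738db_nt_A.Interface

set_option autoImplicit false

namespace Pool.Agent.Work.MP_2738db_nt_A.helper59.W

open NumberField Module

theorem pow_add_lt (x y : ℝ) (hx : 0 < x) (hy : 0 < y) (l : ℕ) (hl : 2 ≤ l) :
    x ^ l + y ^ l < (x + y) ^ l := by
  obtain ⟨m, rfl⟩ : ∃ m, l = m + 1 := ⟨l - 1, by omega⟩
  have hm : m ≠ 0 := by omega
  have h1 : x ^ m < (x + y) ^ m := pow_lt_pow_left₀ (by linarith) hx.le hm
  have h2 : y ^ m < (x + y) ^ m := pow_lt_pow_left₀ (by linarith) hy.le hm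
  have h3 : (x + y) ^ (m + 1) = x * (x + y) ^ m + y * (x + y) ^ m := by ring
  rw [h3, pow_succ x, pow_succ y]
  nlinarith [mul_lt_mul_of_pos_left h1 hx, mul_lt_mul_of_pos_left h2 hy]

theorem sub_pow_ne (a t : ℝ) (ha : 0 < a) (ht : 0 < t) (hne : a ≠ t) (l : ℕ) (hl : 2 ≤ l) :
    (a - t) ^ l ≠ a ^ l - t ^ l := by
  intro h
  have h1 : |a - t| ^ l = |a ^ l - t ^ l| := by rw [← abs_pow, h]
  rcases lt_or_gt_of_ne hne with h2 | h2
  · have h3 := pow_add_lt (t - a) a (by linarith) ha l hl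
    rw [sub_add_cancel] at h3
    have h4 : a ^ l < t ^ l := pow_lt_pow_left₀ h2 ha.le (by omega)
    rw [abs_of_neg (by linarith), abs_of_neg (by linarith), neg_sub] at h1
    linarith
  · have h3 := pow_add_lt (a - t) t (by linarith) ht l hl
    rw [sub_add_cancel] at h3
    have h4 : t ^ l < a ^ l := pow_lt_pow_left₀ h2 ht.le (by omega)
    rw [abs_of_pos (by linarith), abs_of_pos (by linarith)] at h1
    linarith

theorem absNorm_nat (K : Type) [Field K] [NumberField K] (N : ℕ) :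
    Ideal.absNorm (Ideal.span {(N : 𝓞 K)}) = N ^ finrank ℚ K := by
  rw [Ideal.absNorm_span_singleton]
  have : Algebra.norm ℤ ((N : ℤ) : 𝓞 K) = (N : ℤ) ^ finrank ℤ (𝓞 K) := by
    have := Algebra.norm_algebraMap_of_basis (Module.Free.chooseBasis ℤ (𝓞 K)) (N : ℤ)
    simpa [Module.finrank_eq_card_chooseBasisIndex] using this
  rw [show ((N : 𝓞 K)) = ((N : ℤ) : 𝓞 K) by push_cast; rfl, this, Int.natAbs_pow,
    Int.natAbs_natCast, RingOfIntegers.rank]

theorem alg_part (hT : Stmt_Tlg) (K : Type) [Field K] [NumberField K]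
    (l a b c n k : ℕ) (e : ℤ) (θ₀ : 𝓞 K) (σ : K →+* ℝ) (U : ℝ) (hl : l.Prime) (hb : 2 ≤ b)
    (hc : 2 ≤ c) (hbc : Nat.Coprime b c) (ha : 1 ≤ a) (hn : 1 ≤ n)
    (he : e = 1 ∨ e = -1) (heq : (a : ℤ) ^ l = (b : ℤ) ^ n + e * (c : ℤ) ^ k)
    (hθ : θ₀ ^ l = (b : 𝓞 K) ^ (n % l)) (hσ : 0 < σ (θ₀ : K)) (hfr : finrank ℚ K ≤ l)
    (hU : 2 ≤ U) (hlU : (l : ℝ) ≤ U) (hbU : Real.log b ≤ U)
    (s r E e₀ : ℕ) (κ η lam : 𝓞 K) (hr : 1 ≤ r) (hcop : IsCoprime lam (b : 𝓞 K))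
    (hlam0 : lam ≠ 0)
    (hκη : lam * ((a : 𝓞 K) - (b : 𝓞 K) ^ (n / l) * θ₀) * (c : 𝓞 K) ^ E = κ * η ^ r)
    (hke : k + E * l = e₀ + s * r)
    (A B : ℝ) (hA : 1 ≤ A) (hB : 1 ≤ B) (hs : (s : ℝ) * Real.log c ≤ A) (hη : HB K (η ^ l) A)
    (hκ : HB K (κ ^ l) B) (hlam : HB K (lam ^ l * (c : 𝓞 K) ^ e₀) B)
    (hcond : 10 ^ 4 * U ^ 2 * Real.exp (U ^ 2) * (A + B) * (1 + Real.log r) ≤ r) :
    ((n / l : ℕ) : ℝ) ≤ 10 ^ 8 * U ^ 4 * Real.exp (U ^ 2) ^ 2 * A * (A + B)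
      * (1 + Real.log r) ^ 2 := by
  classical
  have hl2 : 2 ≤ l := hl.two_le
  set Θ : 𝓞 K := (b : 𝓞 K) ^ (n / l) * θ₀ with hΘ
  have hΘl : Θ ^ l = (b : 𝓞 K) ^ n := by
    rw [hΘ, mul_pow, hθ, ← pow_mul, ← pow_add, Nat.div_add_mod' n l]
  have hb0 : (b : 𝓞 K) ≠ 0 := by exact_mod_cast (by omega : b ≠ 0)
  have hc0 : (c : 𝓞 K) ≠ 0 := by exact_mod_cast (by omega : c ≠ 0)
  have heqK : (a : 𝓞 K) ^ l = (b : 𝓞 K) ^ n + (e : 𝓞 K) * (c : 𝓞 K) ^ k := by
    have h := congrArg (Int.cast : ℤ → 𝓞 K) heq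
    push_cast at h
    exact h
  have he0 : (e : 𝓞 K) ≠ 0 := by
    rcases he with rfl | rfl <;> simp
  have hnorm := absNorm_nat K b
  have hD : 1 ≤ finrank ℚ K := finrank_pos
  have htop : Ideal.span {(b : 𝓞 K)} ≠ ⊤ := by
    intro h
    rw [h, Ideal.absNorm_top] at hnorm
    have := Nat.one_lt_pow (by omega : finrank ℚ K ≠ 0) (by omega : 1 < b)
    omega
  obtain ⟨P, hPmax, hPb⟩ := Ideal.exists_le_maximal _ htop
  have hP : P.IsPrime := hPmax.isPrime
  have hbP : (b : 𝓞 K) ∈ P := hPb (Ideal.mem_span_singleton_self _)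
  have hP0 : P ≠ ⊥ := by
    rintro rfl
    exact hb0 (by simpa using hbP)
  have h1P : (1 : 𝓞 K) ∉ P := (Ideal.ne_top_iff_one _).1 hP.ne_top
  have hPQ : (Ideal.absNorm P : ℝ) ≤ Real.exp (U ^ 2) := by
    have h1 : Ideal.absNorm P ∣ b ^ finrank ℚ K := by
      rw [← hnorm]
      exact Ideal.absNorm_dvd_absNorm_of_le hPb
    have h2 : Ideal.absNorm P ≤ b ^ finrank ℚ K := Nat.le_of_dvd (by positivity) h1
    have hb1 : (0 : ℝ) < b := by exact_mod_cast (by omega : 0 < b)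
    have hlogb : 0 ≤ Real.log b := Real.log_natCast_nonneg b
    have hfr' : (finrank ℚ K : ℝ) ≤ U := le_trans (by exact_mod_cast hfr) hlU
    calc (Ideal.absNorm P : ℝ) ≤ (b : ℝ) ^ finrank ℚ K := by exact_mod_cast h2
      _ = Real.exp (finrank ℚ K * Real.log b) := by
          rw [Real.exp_nat_mul, Real.exp_log hb1]
      _ ≤ Real.exp (U ^ 2) := by
          apply Real.exp_le_exp.2
          rw [pow_two]
          exact mul_le_mul hfr' hbU hlogb (by linarith)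
  have hcP : (c : 𝓞 K) ∉ P := by
    intro h
    obtain ⟨p, q, hpq⟩ := hbc.isCoprime
    have h2 := congrArg (Int.cast : ℤ → 𝓞 K) hpq
    push_cast at h2
    apply h1P
    rw [← h2]
    exact P.add_mem (P.mul_mem_left _ hbP) (P.mul_mem_left _ h)
  have hlP : lam ∉ P := by
    intro h
    obtain ⟨p, q, hpq⟩ := hcop
    apply h1P
    rw [← hpq]
    exact P.add_mem (P.mul_mem_left _ h) (P.mul_mem_left _ hbP)
  have hΘP : Θ ∈ P := by
    refine hP.mem_of_pow_mem l ?_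
    rw [hΘl]
    exact P.pow_mem_of_mem hbP n (by omega)
  have heP : (e : 𝓞 K) ∉ P := by
    intro h
    apply h1P
    rcases he with rfl | rfl
    · simpa using h
    · have := P.neg_mem h
      simpa using this
  have haP : (a : 𝓞 K) ∉ P := by
    intro h
    have h2 : (e : 𝓞 K) * (c : 𝓞 K) ^ k ∈ P := by
      have h3 : (e : 𝓞 K) * (c : 𝓞 K) ^ k = (a : 𝓞 K) ^ l - (b : 𝓞 K) ^ n := by
        rw [heqK]; ring
      rw [h3]
      exact P.sub_mem (P.pow_mem_of_mem h l (by omega)) (P.pow_mem_of_mem hbP n (by omega))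
    rcases hP.mem_or_mem h2 with h4 | h4
    · exact heP h4
    · exact hcP (hP.mem_of_pow_mem k h4)
  have haΘ : (a : 𝓞 K) - Θ ∉ P := by
    intro h
    apply haP
    have := P.add_mem h hΘP
    simpa using this
  have hprod : κ * η ^ r ∉ P := by
    rw [← hκη]
    intro h
    rcases hP.mem_or_mem h with h2 | h2
    · rcases hP.mem_or_mem h2 with h3 | h3
      · exact hlP h3
      · exact haΘ h3
    · exact hcP (hP.mem_of_pow_mem E h2)
  have hκP : κ ∉ P := fun h => hprod (P.mul_mem_right _ h)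
  have hηP : η ∉ P := fun h => hprod (P.mul_mem_left _ (P.pow_mem_of_mem h r (by omega)))
  -- the two sides
  have hdiff : κ ^ l * (η ^ l) ^ r - (e : 𝓞 K) * (lam ^ l * (c : 𝓞 K) ^ e₀) * ((c : 𝓞 K) ^ s) ^ r
      = lam ^ l * (c : 𝓞 K) ^ (E * l) * (((a : 𝓞 K) - Θ) ^ l - ((a : 𝓞 K) ^ l - Θ ^ l)) := by
    have e1 : κ ^ l * (η ^ l) ^ r = (lam * ((a : 𝓞 K) - Θ) * (c : 𝓞 K) ^ E) ^ l := by
      rw [hκη, mul_pow, ← pow_mul, ← pow_mul, mul_comm l r]
    have e2 : (c : 𝓞 K) ^ e₀ * ((c : 𝓞 K) ^ s) ^ r = (c : 𝓞 K) ^ k * (c : 𝓞 K) ^ (E * l) := by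
      rw [← pow_mul, ← pow_add, ← hke, pow_add]
    have e3 : (a : 𝓞 K) ^ l - Θ ^ l = (e : 𝓞 K) * (c : 𝓞 K) ^ k := by
      rw [heqK, hΘl]; ring
    rw [e1, e3]
    calc (lam * ((a : 𝓞 K) - Θ) * (c : 𝓞 K) ^ E) ^ l
          - (e : 𝓞 K) * (lam ^ l * (c : 𝓞 K) ^ e₀) * ((c : 𝓞 K) ^ s) ^ r
        = lam ^ l * ((a : 𝓞 K) - Θ) ^ l * (c : 𝓞 K) ^ (E * l)
          - (e : 𝓞 K) * lam ^ l * ((c : 𝓞 K) ^ e₀ * ((c : 𝓞 K) ^ s) ^ r) := by
          rw [mul_pow, mul_pow, ← pow_mul]; ring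
      _ = _ := by rw [e2]; ring
  have hmem : κ ^ l * (η ^ l) ^ r
      - (e : 𝓞 K) * (lam ^ l * (c : 𝓞 K) ^ e₀) * ((c : 𝓞 K) ^ s) ^ r ∈ P ^ (n / l) := by
    rw [hdiff]
    refine (P ^ (n / l)).mul_mem_left _ ?_
    have h1 : Θ ∣ ((a : 𝓞 K) - Θ) ^ l - ((a : 𝓞 K) ^ l - Θ ^ l) := by
      have h2 : ((a : 𝓞 K) - Θ) - (a : 𝓞 K) ∣ ((a : 𝓞 K) - Θ) ^ l - (a : 𝓞 K) ^ l :=
        sub_dvd_pow_sub_pow _ _ l
      have h3 : Θ ∣ ((a : 𝓞 K) - Θ) ^ l - (a : 𝓞 K) ^ l := by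
        refine Dvd.dvd.trans ⟨-1, ?_⟩ h2
        ring
      have h4 : Θ ∣ Θ ^ l := dvd_pow_self _ (by omega)
      have h5 : ((a : 𝓞 K) - Θ) ^ l - ((a : 𝓞 K) ^ l - Θ ^ l)
          = (((a : 𝓞 K) - Θ) ^ l - (a : 𝓞 K) ^ l) + Θ ^ l := by ring
      rw [h5]
      exact dvd_add h3 h4
    obtain ⟨w, hw⟩ := h1
    rw [hw]
    refine (P ^ (n / l)).mul_mem_right _ ?_
    rw [hΘ]
    exact (P ^ (n / l)).mul_mem_right _ (Ideal.pow_mem_pow hbP _)
  have hne : κ ^ l * (η ^ l) ^ r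
      ≠ (e : 𝓞 K) * (lam ^ l * (c : 𝓞 K) ^ e₀) * ((c : 𝓞 K) ^ s) ^ r := by
    rw [Ne, ← sub_eq_zero, hdiff, mul_eq_zero, mul_eq_zero, not_or, not_or]
    refine ⟨⟨pow_ne_zero _ hlam0, pow_ne_zero _ hc0⟩, ?_⟩
    intro h
    rw [sub_eq_zero] at h
    have h1 := congrArg (fun x : 𝓞 K => σ (x : K)) h
    simp only [map_pow, map_sub, map_natCast] at h1
    have hpos : 0 < σ (Θ : K) := by
      rw [hΘ]
      have : σ (((b : 𝓞 K) ^ (n / l) * θ₀ : 𝓞 K) : K) = (b : ℝ) ^ (n / l) * σ (θ₀ : K) := by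
        simp only [map_mul, map_pow, map_natCast]
      rw [this]
      have hb1 : (0 : ℝ) < b := by exact_mod_cast (by omega : 0 < b)
      positivity
    have ha1 : (0 : ℝ) < a := by exact_mod_cast (by omega : 0 < a)
    refine sub_pow_ne (a : ℝ) (σ (Θ : K)) ha1 hpos ?_ l hl2 h1
    intro h2
    have h3 : (a : 𝓞 K) ^ l - Θ ^ l = (e : 𝓞 K) * (c : 𝓞 K) ^ k := by
      rw [heqK, hΘl]; ring
    have h4 := congrArg (fun x : 𝓞 K => σ (x : K)) h3
    simp only [map_pow, map_sub, map_natCast, map_mul, map_intCast] at h4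
    rw [h2, sub_self] at h4
    have hc1 : (0 : ℝ) < c := by exact_mod_cast (by omega : 0 < c)
    have hcc : (c : ℝ) ^ k ≠ 0 := by positivity
    rcases he with rfl | rfl
    · exact hcc (by simpa using h4.symm)
    · exact hcc (by simpa using h4.symm)
  have hy2 : HB K ((c : 𝓞 K) ^ s) A := by
    intro v
    have hc1 : (0 : ℝ) < c := by exact_mod_cast (by omega : 0 < c)
    have : v (((c : 𝓞 K) ^ s : 𝓞 K) : K) = (c : ℝ) ^ s := by
      simp only [map_pow, map_natCast]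
      rw [InfinitePlace.map_natCast]
    rw [this]
    calc (c : ℝ) ^ s = Real.exp (s * Real.log c) := by
          rw [Real.exp_nat_mul, Real.exp_log hc1]
      _ ≤ Real.exp A := Real.exp_le_exp.2 hs
  have hx2 : HB K ((e : 𝓞 K) * (lam ^ l * (c : 𝓞 K) ^ e₀)) B := by
    intro v
    have h1 := hlam v
    rcases he with rfl | rfl
    · simpa using h1
    · have : (((-1 : ℤ) : 𝓞 K) * (lam ^ l * (c : 𝓞 K) ^ e₀) : 𝓞 K)
          = -(lam ^ l * (c : 𝓞 K) ^ e₀) := by push_cast; ring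
      rw [this]
      have h2 : ((-(lam ^ l * (c : 𝓞 K) ^ e₀) : 𝓞 K) : K)
          = -((lam ^ l * (c : 𝓞 K) ^ e₀ : 𝓞 K) : K) := by
        simp
      have h3 : v (-((lam ^ l * (c : 𝓞 K) ^ e₀ : 𝓞 K) : K))
          = v ((lam ^ l * (c : 𝓞 K) ^ e₀ : 𝓞 K) : K) := AbsoluteValue.map_neg v.1 _
      rw [h2, h3]
      exact h1
  have hmain := hT K P (κ ^ l) ((e : 𝓞 K) * (lam ^ l * (c : 𝓞 K) ^ e₀)) (η ^ l) ((c : 𝓞 K) ^ s)
    r (n / l) A B U (Real.exp (U ^ 2)) hP hP0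
    (fun h => hκP (hP.mem_of_pow_mem l h))
    (fun h => by
      rcases hP.mem_or_mem h with h2 | h2
      · exact heP h2
      · rcases hP.mem_or_mem h2 with h3 | h3
        · exact hlP (hP.mem_of_pow_mem l h3)
        · exact hcP (hP.mem_of_pow_mem e₀ h3))
    (fun h => hηP (hP.mem_of_pow_mem l h))
    (fun h => hcP (hP.mem_of_pow_mem s h))
    hne hmem (by linarith) (le_trans (by exact_mod_cast hfr) hlU) hPQ hA hB hη hy2 hκ hx2 hcond
  exact hmain

/-- solving `n ≤ G (1 + log n)^2 ...` for `log n` -/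
theorem solve (W L x : ℝ) (hW : 1 ≤ W) (hL : 0 ≤ L) (hx : 0 ≤ x)
    (h : x ≤ W + W * (L + 2 * Real.log (1 + x))) : x ≤ W ^ 2 * (6 + L) ^ 2 := by
  set z := Real.sqrt (1 + x) with hz
  have hz2 : z ^ 2 = 1 + x := Real.sq_sqrt (by linarith)
  have hz1 : 1 ≤ z := by
    rw [hz]
    exact Real.one_le_sqrt.2 (by linarith)
  have hlog : Real.log (1 + x) ≤ 2 * z := by
    rw [← hz2, Real.log_pow]
    have := Real.log_le_sub_one_of_pos (show 0 < z by linarith)
    push_cast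
    linarith
  have h1 : z ^ 2 ≤ 1 + W + W * L + 4 * W * z := by
    have := mul_le_mul_of_nonneg_left hlog (by linarith : 0 ≤ 2 * W)
    nlinarith
  have hWL : 0 ≤ W * L := by positivity
  have h2 : z ≤ W * (6 + L) := by
    have h3 : z * z ≤ (W * (6 + L)) * z := by
      nlinarith [mul_le_mul_of_nonneg_left hz1 (by linarith : 0 ≤ 1 + W + W * L)]
    exact le_of_mul_le_mul_right h3 (by linarith)
  have h4 : z ^ 2 ≤ (W * (6 + L)) ^ 2 := pow_le_pow_left₀ (by linarith) h2 2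
  rw [mul_pow] at h4
  linarith

theorem numerics (U C : ℝ) (hU : 2 ≤ U) (hC : 1 ≤ C) (n u r l : ℕ) (δ : ℝ)
    (hn : 1 ≤ n) (hu : 1 ≤ u) (hr : r = n / u) (hlU : (l : ℝ) ≤ U) (hl : 1 ≤ l)
    (hδ : δ = 1 / (4 * (10 ^ 8 * U ^ 5 * (U ^ C) ^ 2 * Real.exp (U ^ 2) ^ 2)
      * (1 + Real.log n) ^ 2))
    (huδ : (u : ℝ) ≤ Real.exp (U ^ C) * (1 / δ) ^ (U ^ C))
    (hmain : 10 ^ 4 * U ^ 2 * Real.exp (U ^ 2) * (u * U ^ C + (u + r * δ) * U ^ C)
        * (1 + Real.log r) ≤ r →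
      ((n / l : ℕ) : ℝ) ≤ 10 ^ 8 * U ^ 4 * Real.exp (U ^ 2) ^ 2 * (u * U ^ C)
        * (u * U ^ C + (u + r * δ) * U ^ C) * (1 + Real.log r) ^ 2) :
    Real.log n ≤ U ^ (64 + 6 * C) := by
  have hU0 : 0 < U := by linarith
  have hU1 : 1 ≤ U := by linarith
  set V : ℝ := U ^ C with hV
  set E : ℝ := Real.exp (U ^ 2) with hE
  set lam : ℝ := 1 + Real.log n with hlam
  set G : ℝ := 10 ^ 8 * U ^ 5 * V ^ 2 * E ^ 2 with hG
  have hVU : U ≤ V := by
    calc U = U ^ (1 : ℝ) := (Real.rpow_one U).symm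
      _ ≤ U ^ C := Real.rpow_le_rpow_of_exponent_le hU1 hC
  have hV1 : 1 ≤ V := by linarith
  have hE1 : 1 ≤ E := Real.one_le_exp (by positivity)
  have hlogn : 0 ≤ Real.log n := Real.log_natCast_nonneg n
  have hlam1 : 1 ≤ lam := by linarith
  have hG0 : 0 < G := by positivity
  have hδ0 : 0 < δ := by rw [hδ]; positivity
  have hGδ : G * lam ^ 2 * δ = 1 / 4 := by
    rw [hδ]
    field_simp
  have hn1 : (1 : ℝ) ≤ n := by exact_mod_cast hn
  have hu1 : (1 : ℝ) ≤ u := by exact_mod_cast hu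
  have hr0 : (0 : ℝ) ≤ r := by positivity
  have hrn : (r : ℝ) * u ≤ n := by
    rw [hr]
    exact_mod_cast Nat.div_mul_le_self n u
  have hrn' : (n : ℝ) ≤ (r + 1) * u := by
    rw [hr]
    have := Nat.lt_mul_div_succ n (show 0 < u by omega)
    have h2 : n ≤ (n / u + 1) * u := by
      rw [mul_comm]
      exact this.le
    exact_mod_cast h2
  have hlogr : 1 + Real.log r ≤ lam := by
    rcases Nat.eq_zero_or_pos r with h | h
    · rw [h]
      simp [hlam1]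
    · have : (r : ℝ) ≤ n := by nlinarith [show (1 : ℝ) ≤ r by exact_mod_cast h]
      have := Real.log_le_log (by exact_mod_cast h) this
      linarith
  have hlogr0 : 0 ≤ 1 + Real.log r := by
    have := Real.log_natCast_nonneg r
    linarith
  have hδn : (u : ℝ) * r * δ ≤ n * δ := by nlinarith
  have hu2 : (u : ℝ) ≤ u ^ 2 := by nlinarith
  have hkey : (n : ℝ) ≤ (1 / δ) * u ^ 2 := by
    have hGU : U ≤ G := by
      have h1 : 1 ≤ U ^ 4 := one_le_pow₀ hU1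
      have h2 : 1 ≤ V ^ 2 := one_le_pow₀ hV1
      have h3 : 1 ≤ E ^ 2 := one_le_pow₀ hE1
      calc U = U * 1 * 1 * 1 := by ring
        _ ≤ U * U ^ 4 * V ^ 2 * E ^ 2 := by gcongr
        _ ≤ 10 ^ 8 * (U * U ^ 4 * V ^ 2 * E ^ 2) := by
            have : 0 ≤ U * U ^ 4 * V ^ 2 * E ^ 2 := by positivity
            linarith
        _ = G := by rw [hG]; ring
    have hGl : G ≤ G * lam ^ 2 := le_mul_of_one_le_right hG0.le (one_le_pow₀ hlam1)
    have hsmall : U ≤ G * lam ^ 2 * u ^ 2 := by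
      have : G * lam ^ 2 ≤ G * lam ^ 2 * u ^ 2 :=
        le_mul_of_one_le_right (by positivity) (one_le_pow₀ hu1)
      linarith
    have hsmall2 : (u : ℝ) ≤ G * lam ^ 2 * u ^ 2 := by
      have : 1 * (u : ℝ) ^ 2 ≤ G * lam ^ 2 * u ^ 2 := by
        apply mul_le_mul_of_nonneg_right _ (by positivity)
        linarith
      linarith
    have h4G : 1 / δ = 4 * (G * lam ^ 2) := by
      rw [div_eq_iff hδ0.ne']
      linarith
    rw [h4G]
    have hfin : ∀ t : ℝ, t ≤ G * lam ^ 2 * u ^ 2 →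
        (n : ℝ) ≤ t + G * lam ^ 2 * (2 * u ^ 2 + n * δ) →
        (n : ℝ) ≤ 4 * (G * lam ^ 2) * u ^ 2 := by
      intro t ht h
      have h2 : G * lam ^ 2 * (2 * u ^ 2 + n * δ) = 2 * (G * lam ^ 2 * u ^ 2) + n / 4 := by
        calc G * lam ^ 2 * (2 * u ^ 2 + n * δ)
            = 2 * (G * lam ^ 2 * u ^ 2) + n * (G * lam ^ 2 * δ) := by ring
          _ = _ := by rw [hGδ]; ring
      rw [h2] at h
      linarith
    by_cases hcase : 10 ^ 4 * U ^ 2 * E * (u * V + (u + r * δ) * V) * (1 + Real.log r) ≤ r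
    · have h1 := hmain hcase
      refine hfin U hsmall ?_
      have h2 : (n : ℝ) ≤ U * ((n / l : ℕ) : ℝ) + U := by
        have h3 := Nat.lt_mul_div_succ n (show 0 < l by omega)
        have h4 : (n : ℝ) ≤ l * (((n / l : ℕ) : ℝ) + 1) := by exact_mod_cast h3.le
        have h5 : (l : ℝ) * (((n / l : ℕ) : ℝ) + 1) ≤ U * (((n / l : ℕ) : ℝ) + 1) :=
          mul_le_mul_of_nonneg_right hlU (by positivity)
        linarith
      have h6 : U * ((n / l : ℕ) : ℝ) ≤ G * lam ^ 2 * (2 * u ^ 2 + n * δ) := by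
        calc U * ((n / l : ℕ) : ℝ)
            ≤ U * (10 ^ 8 * U ^ 4 * E ^ 2 * (u * V) * (u * V + (u + r * δ) * V)
              * (1 + Real.log r) ^ 2) := mul_le_mul_of_nonneg_left h1 hU0.le
          _ ≤ U * (10 ^ 8 * U ^ 4 * E ^ 2 * (u * V) * (u * V + (u + r * δ) * V) * lam ^ 2) := by
              gcongr
          _ = G * lam ^ 2 * (2 * u ^ 2 + u * r * δ) := by rw [hG]; ring
          _ ≤ _ := by gcongr
      linarith
    · push Not at hcase
      refine hfin u hsmall2 ?_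
      have h1 : (u : ℝ) * r ≤ G * lam ^ 2 * (2 * u ^ 2 + n * δ) := by
        calc (u : ℝ) * r
            ≤ u * (10 ^ 4 * U ^ 2 * E * (u * V + (u + r * δ) * V) * (1 + Real.log r)) :=
              mul_le_mul_of_nonneg_left hcase.le (by positivity)
          _ ≤ u * (10 ^ 4 * U ^ 2 * E * (u * V + (u + r * δ) * V) * lam) := by gcongr
          _ = (10 ^ 4 * U ^ 2 * E * V * lam) * (2 * u ^ 2 + u * r * δ) := by ring
          _ ≤ (10 ^ 8 * U ^ 5 * E ^ 2 * V ^ 2 * lam ^ 2) * (2 * u ^ 2 + n * δ) := by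
              have g0 : (10 : ℝ) ^ 4 ≤ 10 ^ 8 := by norm_num
              have g1 : U ^ 2 ≤ U ^ 5 := pow_le_pow_right₀ hU1 (by norm_num)
              have g2 : E ≤ E ^ 2 := le_self_pow₀ hE1 (by norm_num)
              have g3 : V ≤ V ^ 2 := le_self_pow₀ hV1 (by norm_num)
              have g4 : lam ≤ lam ^ 2 := le_self_pow₀ hlam1 (by norm_num)
              have g5 : (2 : ℝ) * u ^ 2 + u * r * δ ≤ 2 * u ^ 2 + n * δ := by linarith
              have g6 : (10 : ℝ) ^ 4 * U ^ 2 ≤ 10 ^ 8 * U ^ 5 :=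
                mul_le_mul g0 g1 (by positivity) (by positivity)
              have g7 : (10 : ℝ) ^ 4 * U ^ 2 * E ≤ 10 ^ 8 * U ^ 5 * E ^ 2 :=
                mul_le_mul g6 g2 (by positivity) (by positivity)
              have g8 : (10 : ℝ) ^ 4 * U ^ 2 * E * V ≤ 10 ^ 8 * U ^ 5 * E ^ 2 * V ^ 2 :=
                mul_le_mul g7 g3 (by positivity) (by positivity)
              have g9 : (10 : ℝ) ^ 4 * U ^ 2 * E * V * lam
                  ≤ 10 ^ 8 * U ^ 5 * E ^ 2 * V ^ 2 * lam ^ 2 :=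
                mul_le_mul g8 g4 (by positivity) (by positivity)
              exact mul_le_mul g9 g5 (by positivity) (by positivity)
          _ = _ := by rw [hG]; ring
      nlinarith
  -- logarithms
  have h4G : 1 / δ = 4 * G * lam ^ 2 := by
    rw [div_eq_iff hδ0.ne']
    linarith
  set X : ℝ := 1 / δ with hX
  have hX0 : 0 < X := by positivity
  have hlogu : Real.log u ≤ V + V * Real.log X := by
    have h1 := Real.log_le_log (by linarith) huδ
    rw [Real.log_mul (Real.exp_pos _).ne' (Real.rpow_pos_of_pos hX0 _).ne', Real.log_exp,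
      Real.log_rpow hX0] at h1
    exact h1
  have hlogn2 : Real.log n ≤ Real.log X + 2 * Real.log u := by
    have h1 := Real.log_le_log (by linarith) hkey
    rw [Real.log_mul hX0.ne' (by positivity), Real.log_pow] at h1
    exact_mod_cast h1
  have hlogX : Real.log X = Real.log (4 * G) + 2 * Real.log lam := by
    rw [h4G, Real.log_mul (by positivity) (by positivity), Real.log_pow]
    norm_num
  have hG1 : 1 ≤ 4 * G := by
    have : 1 ≤ G := by
      have h1 : 1 ≤ U ^ 5 := one_le_pow₀ hU1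
      have h2 : 1 ≤ V ^ 2 := one_le_pow₀ hV1
      have h3 : 1 ≤ E ^ 2 := one_le_pow₀ hE1
      calc (1 : ℝ) = 1 * 1 * 1 * 1 := by ring
        _ ≤ 10 ^ 8 * U ^ 5 * V ^ 2 * E ^ 2 := by gcongr; norm_num
    linarith
  have hL0 : 0 ≤ Real.log (4 * G) := Real.log_nonneg hG1
  have hllam : 0 ≤ Real.log lam := Real.log_nonneg hlam1
  have hsolve := solve (3 * V) (Real.log (4 * G)) (Real.log n) (by linarith) hL0 hlogn (by
    have h1 : Real.log n ≤ 2 * V + (1 + 2 * V) * Real.log X := by nlinarith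
    rw [hlogX] at h1
    have h2 : (1 + 2 * V) * (Real.log (4 * G) + 2 * Real.log lam)
        ≤ (3 * V) * (Real.log (4 * G) + 2 * Real.log lam) :=
      mul_le_mul_of_nonneg_right (by linarith) (by positivity)
    linarith)
  have hlogG : 6 + Real.log (4 * G) ≤ (28 + 2 * C) * U ^ 2 := by
    have h1 : Real.log (4 * G) = Real.log 4 + 8 * Real.log 10 + 5 * Real.log U
        + 2 * (C * Real.log U) + 2 * U ^ 2 := by
      rw [hG, hE, hV]
      rw [Real.log_mul (by norm_num) (by positivity), Real.log_mul (by positivity) (by positivity),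
        Real.log_mul (by positivity) (by positivity), Real.log_mul (by positivity) (by positivity),
        Real.log_pow, Real.log_pow, Real.log_pow, Real.log_pow, Real.log_exp,
        Real.log_rpow hU0]
      push_cast
      ring
    have h2 : Real.log 4 ≤ 3 := by
      have := Real.log_le_sub_one_of_pos (show (0 : ℝ) < 4 by norm_num)
      linarith
    have h3 : Real.log 10 ≤ 9 := by
      have := Real.log_le_sub_one_of_pos (show (0 : ℝ) < 10 by norm_num)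
      linarith
    have h4 : Real.log U ≤ U := by
      have := Real.log_le_sub_one_of_pos hU0
      linarith
    have h5 : U ≤ U ^ 2 := by nlinarith
    have h6 : C * Real.log U ≤ C * U ^ 2 :=
      mul_le_mul_of_nonneg_left (h4.trans h5) (by linarith)
    have h7 : 4 ≤ U ^ 2 := by nlinarith
    rw [h1]
    nlinarith
  have hpow : (28 + 2 * C) ≤ U ^ (28 + 2 * C) := by
    have h1 := one_add_mul_self_le_rpow_one_add (s := 1) (by norm_num)
      (p := 28 + 2 * C) (by linarith)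
    have h2 : (2 : ℝ) ^ (28 + 2 * C) ≤ U ^ (28 + 2 * C) :=
      Real.rpow_le_rpow (by norm_num) hU (by linarith)
    have h3 : (1 + 1 : ℝ) = 2 := by norm_num
    rw [h3] at h1
    linarith
  have h9 : (3 : ℝ) ^ 2 ≤ U ^ (4 : ℝ) := by
    have : U ^ (4 : ℝ) = U ^ (4 : ℕ) := by
      rw [← Real.rpow_natCast]; norm_num
    rw [this]
    have := pow_le_pow_left₀ (by norm_num) hU 4
    linarith
  calc Real.log n ≤ (3 * V) ^ 2 * (6 + Real.log (4 * G)) ^ 2 := hsolve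
    _ ≤ (3 * V) ^ 2 * ((28 + 2 * C) * U ^ 2) ^ 2 := by gcongr
    _ ≤ (3 * V) ^ 2 * (U ^ (28 + 2 * C) * U ^ 2) ^ 2 := by gcongr
    _ = 3 ^ 2 * V ^ 2 * (U ^ (28 + 2 * C) * U ^ 2) ^ 2 := by ring
    _ ≤ U ^ (4 : ℝ) * V ^ 2 * (U ^ (28 + 2 * C) * U ^ 2) ^ 2 := by gcongr
    _ = U ^ (64 + 6 * C) := by
        rw [hV]
        have e2 : ∀ y : ℝ, 0 ≤ y → y ^ 2 = y * y := fun y _ => pow_two y
        have hUU : U ^ (2 : ℕ) = U ^ (2 : ℝ) := by
          rw [← Real.rpow_natCast]; norm_num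
        rw [hUU, pow_two, pow_two, ← Real.rpow_add hU0, ← Real.rpow_add hU0,
          ← Real.rpow_add hU0, ← Real.rpow_add hU0, ← Real.rpow_add hU0]
        congr 1
        ring

theorem core (hF : Stmt_Fld) (hD : Stmt_Dec) (hT : Stmt_Tlg) :
    ∃ C : ℝ, 1 ≤ C ∧ ∀ (l a b c n k : ℕ) (e : ℤ) (U : ℝ), l.Prime → 2 ≤ b → 2 ≤ c →
      Nat.Coprime b c → 1 ≤ a → 1 ≤ n → 1 ≤ k → (e = 1 ∨ e = -1) →
      (a : ℤ) ^ l = (b : ℤ) ^ n + e * (c : ℤ) ^ k → c ^ k ≤ b ^ n →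
      2 ≤ U → (l : ℝ) ≤ U → Real.log b ≤ U → Real.log c ≤ U → Real.log n ≤ U ^ C := by
  obtain ⟨C, hC, hD⟩ := hD
  refine ⟨64 + 6 * C, by linarith, ?_⟩
  intro l a b c n k e U hl hb hc hbc ha hn hk he heq hle hU hlU hbU hcU
  obtain ⟨K, iF, iN, θ₀, σ, hθ, hσ, hfr, hdisc⟩ := hF l b (n % l) hl.one_le hb
    (Nat.mod_lt _ hl.pos)
  have hU0 : 0 < U := by linarith
  have hU1 : 1 ≤ U := by linarith
  have hVU : U ≤ U ^ C := by
    calc U = U ^ (1 : ℝ) := (Real.rpow_one U).symm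
      _ ≤ U ^ C := Real.rpow_le_rpow_of_exponent_le hU1 hC
  have hlogn : 0 ≤ Real.log n := Real.log_natCast_nonneg n
  set Y : ℝ := 4 * (10 ^ 8 * U ^ 5 * (U ^ C) ^ 2 * Real.exp (U ^ 2) ^ 2)
      * (1 + Real.log n) ^ 2 with hY
  have hY1 : 1 ≤ Y := by
    have h1 : 1 ≤ U ^ 5 := one_le_pow₀ hU1
    have h2 : 1 ≤ (U ^ C) ^ 2 := one_le_pow₀ (by linarith)
    have h3 : 1 ≤ Real.exp (U ^ 2) ^ 2 := one_le_pow₀ (Real.one_le_exp (by positivity))
    have h4 : 1 ≤ (1 + Real.log n) ^ 2 := one_le_pow₀ (by linarith)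
    calc (1 : ℝ) = 1 * (1 * 1 * 1 * 1) * 1 := by ring
      _ ≤ 4 * (10 ^ 8 * U ^ 5 * (U ^ C) ^ 2 * Real.exp (U ^ 2) ^ 2)
          * (1 + Real.log n) ^ 2 := by
          gcongr
          · norm_num
          · norm_num
  have hθl : ((b : 𝓞 K) ^ (n / l) * θ₀) ^ l = (b : 𝓞 K) ^ n := by
    rw [mul_pow, hθ, ← pow_mul, ← pow_add, Nat.div_add_mod' n l]
  obtain ⟨u, s, r, E, e₀, κ, η, lam, hu, huδ, hr, hlam, hcop, hκ0, hη0, hκη, hke, hs, hη, hκ,
    hlamB⟩ := hD K l a b c n k e ((b : 𝓞 K) ^ (n / l) * θ₀) U (1 / Y) hl hb hc hbc ha hn hk he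
    heq hle hθl hfr hdisc hU hlU hbU hcU (by positivity) (by
      rw [div_le_one (by linarith)]
      exact hY1)
  have hlam0 : lam ≠ 0 := by
    rcases hlam with h | h
    · rw [h]; exact one_ne_zero
    · rw [h]; exact_mod_cast hl.ne_zero
  refine numerics U C hU hC n u r l (1 / Y) hn hu hr hlU hl.one_le rfl huδ ?_
  intro hcond
  have hu1 : (1 : ℝ) ≤ u := by exact_mod_cast hu
  have hY0 : (0 : ℝ) < 1 / Y := by positivity
  have hr1 : 1 ≤ r := by
    rcases Nat.eq_zero_or_pos r with h | h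
    · exfalso
      rw [h] at hcond
      simp only [Nat.cast_zero, Real.log_zero, add_zero, mul_one, zero_mul] at hcond
      have : 0 < 10 ^ 4 * U ^ 2 * Real.exp (U ^ 2) * ((u : ℝ) * U ^ C + u * U ^ C) := by
        positivity
      linarith
    · exact h
  have hA : 1 ≤ (u : ℝ) * U ^ C := by nlinarith
  have hB : 1 ≤ ((u : ℝ) + r * (1 / Y)) * U ^ C := by
    have : (u : ℝ) * U ^ C ≤ ((u : ℝ) + r * (1 / Y)) * U ^ C := by
      have : (0 : ℝ) ≤ r * (1 / Y) := by positivity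
      gcongr
      linarith
    linarith
  exact alg_part hT K l a b c n k e θ₀ σ U hl hb hc hbc ha hn he heq hθ hσ hfr hU hlU hbU
    s r E e₀ κ η lam hr1 hcop hlam0 hκη hke (u * U ^ C) ((u + r * (1 / Y)) * U ^ C) hA hB hs hη hκ
    hlamB hcond

theorem stmt_W (hF : Stmt_Fld) (hD : Stmt_Dec) (hT : Stmt_Tlg) : Stmt_W := by
  obtain ⟨C, hC, hcore⟩ := core hF hD hT
  refine ⟨C + 2, by linarith, ?_⟩
  have main : ∀ (l a b c n k : ℕ) (e : ℤ) (U : ℝ), l.Prime → 2 ≤ b → 2 ≤ c →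
      Nat.Coprime b c → 1 ≤ a → 1 ≤ n → 1 ≤ k → (e = 1 ∨ e = -1) →
      (a : ℤ) ^ l = (b : ℤ) ^ n + e * (c : ℤ) ^ k → c ^ k ≤ b ^ n →
      2 ≤ U → (l : ℝ) ≤ U → Real.log b ≤ U → Real.log c ≤ U →
      Real.log n ≤ U ^ (C + 2) ∧ Real.log k ≤ U ^ (C + 2) := by
    intro l a b c n k e U hl hb hc hbc ha hn hk he heq hle hU hlU hbU hcU
    have h1 := hcore l a b c n k e U hl hb hc hbc ha hn hk he heq hle hU hlU hbU hcU
    have hU0 : 0 < U := by linarith
    have hU1 : 1 ≤ U := by linarith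
    have hT1 : U ≤ U ^ C := by
      calc U = U ^ (1 : ℝ) := (Real.rpow_one U).symm
        _ ≤ U ^ C := Real.rpow_le_rpow_of_exponent_le hU1 hC
    have hpow : U ^ (C + 2) = U ^ C * U ^ 2 := by
      rw [Real.rpow_add hU0]
      norm_num
    have h4 : 4 * U ^ C ≤ U ^ (C + 2) := by
      rw [hpow]
      have : 4 ≤ U ^ 2 := by nlinarith
      nlinarith
    refine ⟨by linarith, ?_⟩
    have hk1 : (1 : ℝ) ≤ k := by exact_mod_cast hk
    have hn1 : (1 : ℝ) ≤ n := by exact_mod_cast hn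
    have hb1 : (0 : ℝ) < b := by exact_mod_cast (by omega : 0 < b)
    have hc1 : (0 : ℝ) < c := by exact_mod_cast (by omega : 0 < c)
    have hklog : (k : ℝ) * Real.log c ≤ n * Real.log b := by
      have h2 : ((c : ℝ)) ^ k ≤ (b : ℝ) ^ n := by exact_mod_cast hle
      have h3 := Real.log_le_log (by positivity) h2
      rwa [Real.log_pow, Real.log_pow] at h3
    have hc2 : (1 : ℝ) / 2 ≤ Real.log c := by
      have h2 : Real.log 2 ≤ Real.log c :=
        Real.log_le_log (by norm_num) (by exact_mod_cast hc)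
      have := Real.log_two_gt_d9
      linarith
    have hkn : (k : ℝ) ≤ 2 * U * n := by
      have h2 : (k : ℝ) * (1 / 2) ≤ k * Real.log c :=
        mul_le_mul_of_nonneg_left hc2 (by linarith)
      have h3 : (n : ℝ) * Real.log b ≤ n * U := mul_le_mul_of_nonneg_left hbU (by linarith)
      linarith
    have hlogk : Real.log k ≤ Real.log 2 + Real.log U + Real.log n := by
      have h2 := Real.log_le_log (by linarith) hkn
      rwa [Real.log_mul (by positivity) (by positivity), Real.log_mul (by norm_num) hU0.ne'] at h2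
    have h5 : Real.log U ≤ U - 1 := Real.log_le_sub_one_of_pos hU0
    have h6 : Real.log 2 ≤ 1 := by
      have := Real.log_two_lt_d9
      linarith
    linarith
  intro l a b c n k U hl hb hc hbc ha hn hk heq hU hlU hbU hcU
  rcases le_total (c ^ k) (b ^ n) with hle | hle
  · rcases heq with h | h | h
    · have : 0 < a ^ l := by positivity
      omega
    · exact main l a b c n k 1 U hl hb hc hbc ha hn hk (Or.inl rfl) (by
        have : ((b ^ n + c ^ k : ℕ) : ℤ) = ((a ^ l : ℕ) : ℤ) := by rw [h]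
        push_cast at this
        linarith) hle hU hlU hbU hcU
    · exact main l a b c n k (-1) U hl hb hc hbc ha hn hk (Or.inr rfl) (by
        have : ((c ^ k + a ^ l : ℕ) : ℤ) = ((b ^ n : ℕ) : ℤ) := by rw [h]
        push_cast at this
        linarith) hle hU hlU hbU hcU
  · rcases heq with h | h | h
    · exact (main l a c b k n (-1) U hl hc hb hbc.symm ha hk hn (Or.inr rfl) (by
        have : ((a ^ l + b ^ n : ℕ) : ℤ) = ((c ^ k : ℕ) : ℤ) := by rw [h]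
        push_cast at this
        linarith) hle hU hlU hcU hbU).symm
    · exact (main l a c b k n 1 U hl hc hb hbc.symm ha hk hn (Or.inl rfl) (by
        have : ((b ^ n + c ^ k : ℕ) : ℤ) = ((a ^ l : ℕ) : ℤ) := by rw [h]
        push_cast at this
        linarith) hle hU hlU hcU hbU).symm
    · have : 0 < a ^ l := by positivity
      omega

end Pool.Agent.Work.MP_2738db_nt_A.helper59.W
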